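import Mathlib

/-!
# The path maximises the relaxation time among connected graphs with `m` edges

For a connected graph `G` with `m` edges there is a closed walk of length `2 m` using every edge
exactly twice.  Reading a function `f` on the vertices along this walk gives a cyclic sequence of
length `2 m`; vertex `x` is read `deg x` times.  Comparing Dirichlet forms with the cycle of
length `2 m` (discrete Wirtinger inequality) gives that the spectral gap of simple random walk on
`G` is at least `1 - cos (pi / m)`, which is the spectral gap of the path with `m` edges.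
-/

set_option autoImplicit false

open Finset Filter Topology

namespace Pool.Agent.Results.MP_ea35a0_co.PathMaximises

open Classical in
/-- Transition matrix of simple random walk on `G`: the entry at `(x, y)` is `1 / deg x` when
`x` and `y` are adjacent and `0` otherwise. -/
noncomputable def transitionMatrix {V : Type*} [Fintype V] (G : SimpleGraph V) : Matrix V V ℝ :=
  Matrix.of fun x y => if G.Adj x y then 1 / ((G.neighborSet x).ncard : ℝ) else 0

/-- The real eigenvalues of the transition matrix (roots of its characteristic polynomial), listed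
with multiplicity in decreasing order. -/
noncomputable def eigenvalueList {V : Type*} [Fintype V] [DecidableEq V] (G : SimpleGraph V) :
    List ℝ :=
  (transitionMatrix G).charpoly.roots.sort (· ≥ ·)

/-- The second largest eigenvalue of the transition matrix, counted with multiplicity. -/
noncomputable def lambda2 {V : Type*} [Fintype V] [DecidableEq V] (G : SimpleGraph V) : ℝ :=
  (eigenvalueList G).getD 1 0

/-- The relaxation time `1 / (1 - lambda2)` of simple random walk on `G`. -/
noncomputable def relaxationTime {V : Type*} [Fintype V] [DecidableEq V]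
    (G : SimpleGraph V) : ℝ :=
  1 / (1 - lambda2 G)

/-- The set of relaxation times of connected graphs with exactly `m` edges. -/
def relaxationTimes (m : ℕ) : Set ℝ :=
  {T : ℝ | ∃ (n : ℕ) (G : SimpleGraph (Fin n)),
    G.Connected ∧ G.edgeSet.ncard = m ∧ T = relaxationTime G}

/-- `R m`, the maximal relaxation time over connected graphs with `m` edges (the theorem below
shows that the supremum is attained for `m ≥ 1`). -/
noncomputable def R (m : ℕ) : ℝ := sSup (relaxationTimes m)

section Cyclic

open ZMod

/-- Parseval identity on `ZMod N`. -/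
theorem parseval {N : ℕ} [NeZero N] (x : ZMod N → ℂ) :
    ∑ k, ‖dft x k‖ ^ 2 = N * ∑ j, ‖x j‖ ^ 2 := by
  have key : (∑ k, (dft x k) * (starRingEnd ℂ) (dft x k) : ℂ) =
      N * ∑ j, x j * (starRingEnd ℂ) (x j) := by
    have h1 : ∀ k, (starRingEnd ℂ) (dft x k) =
        ∑ j : ZMod N, stdAddChar (j * k) * (starRingEnd ℂ) (x j) := by
      intro k
      rw [dft_apply, map_sum]
      refine Finset.sum_congr rfl fun j _ => ?_
      rw [smul_eq_mul, map_mul]
      congr 1
      rw [← AddChar.map_neg_eq_conj, neg_neg]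
    calc (∑ k, (dft x k) * (starRingEnd ℂ) (dft x k) : ℂ)
        = ∑ k, ∑ j : ZMod N, (starRingEnd ℂ) (x j) * (stdAddChar (j * k) * dft x k) := by
          refine Finset.sum_congr rfl fun k _ => ?_
          rw [h1, Finset.mul_sum]
          refine Finset.sum_congr rfl fun j _ => ?_
          ring
      _ = ∑ j : ZMod N, (starRingEnd ℂ) (x j) * ∑ k, (stdAddChar (j * k) * dft x k) := by
          rw [Finset.sum_comm]
          refine Finset.sum_congr rfl fun j _ => ?_
          rw [Finset.mul_sum]
      _ = ∑ j : ZMod N, (starRingEnd ℂ) (x j) * (N * x j) := by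
          refine Finset.sum_congr rfl fun j _ => ?_
          congr 1
          have h2 := congrFun (dft_dft x) (-j)
          rw [dft_apply, neg_neg, smul_eq_mul] at h2
          rw [← h2]
          refine Finset.sum_congr rfl fun k _ => ?_
          rw [smul_eq_mul]
          congr 2
          ring
      _ = N * ∑ j, x j * (starRingEnd ℂ) (x j) := by
          rw [Finset.mul_sum]
          refine Finset.sum_congr rfl fun j _ => ?_
          ring
  have h3 : ((∑ k, ‖dft x k‖ ^ 2 : ℝ) : ℂ) = ((N * ∑ j, ‖x j‖ ^ 2 : ℝ) : ℂ) := by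
    push_cast
    simp only [Complex.mul_conj'] at key
    exact key
  exact_mod_cast h3

theorem cos_le_cos_of_mem {a t : ℝ} (ha : 0 ≤ a) (h1 : a ≤ t) (h2 : t ≤ 2 * Real.pi - a) :
    Real.cos t ≤ Real.cos a := by
  have h := Real.cos_sub_cos t a
  have hs1 : 0 ≤ Real.sin ((t + a) / 2) :=
    Real.sin_nonneg_of_nonneg_of_le_pi (by linarith) (by linarith)
  have hs2 : 0 ≤ Real.sin ((t - a) / 2) :=
    Real.sin_nonneg_of_nonneg_of_le_pi (by linarith) (by linarith)
  nlinarith [mul_nonneg hs1 hs2]

theorem normSq_stdAddChar_sub_one {N : ℕ} [NeZero N] (k : ZMod N) :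
    ‖stdAddChar k - 1‖ ^ 2 = 2 - 2 * Real.cos (2 * Real.pi * k.val / N) := by
  have h1 : (stdAddChar k : ℂ) = Complex.exp ((2 * Real.pi * k.val / N : ℝ) * Complex.I) := by
    have := stdAddChar_coe (N := N) (k.val : ℤ)
    rw [show (((k.val : ℤ)) : ZMod N) = k by simp] at this
    rw [this]
    congr 1
    push_cast
    ring
  rw [h1, ← Complex.normSq_eq_norm_sq, Complex.exp_mul_I, Complex.normSq_apply]
  simp only [Complex.sub_re, Complex.add_re, Complex.one_re, Complex.mul_re, Complex.I_re,
    Complex.I_im, Complex.sub_im, Complex.add_im, Complex.one_im, Complex.mul_im,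
    ← Complex.ofReal_cos, ← Complex.ofReal_sin, Complex.ofReal_re, Complex.ofReal_im]
  have := Real.sin_sq_add_cos_sq (2 * Real.pi * k.val / N)
  nlinarith

/-- The discrete Wirtinger inequality for cyclic sequences. -/
theorem wirtinger {N : ℕ} [NeZero N] (x : ZMod N → ℝ) (hx : ∑ j, x j = 0) :
    (2 - 2 * Real.cos (2 * Real.pi / N)) * ∑ j, x j ^ 2 ≤ ∑ j, (x (j + 1) - x j) ^ 2 := by
  have hN : (0 : ℝ) < N := by exact_mod_cast Nat.pos_of_ne_zero (NeZero.ne N)
  let z : ZMod N → ℂ := fun j => (x j : ℂ)
  let d : ZMod N → ℂ := fun j => z (j + 1) - z j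
  have hd : ∀ k, dft d k = (stdAddChar k - 1) * dft z k := by
    intro k
    rw [dft_apply, dft_apply]
    simp only [d, smul_eq_mul, mul_sub, Finset.sum_sub_distrib]
    rw [sub_mul, one_mul]
    congr 1
    rw [← Equiv.sum_comp (Equiv.addRight (1 : ZMod N))
      (fun j => stdAddChar (-(j * k)) * z j), Finset.mul_sum]
    refine Finset.sum_congr rfl fun j _ => ?_
    simp only [Equiv.coe_addRight]
    rw [← mul_assoc, ← AddChar.map_add_eq_mul]
    congr 2
    ring
  have h0 : dft z 0 = 0 := by
    rw [dft_apply_zero]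
    simp only [z]
    rw [← Complex.ofReal_sum, hx, Complex.ofReal_zero]
  have P1 := parseval z
  have P2 := parseval d
  have e1 : ∑ j, ‖z j‖ ^ 2 = ∑ j, x j ^ 2 := by
    refine Finset.sum_congr rfl fun j _ => ?_
    simp only [z, Complex.norm_real, Real.norm_eq_abs, sq_abs]
  have e2 : ∑ j, ‖d j‖ ^ 2 = ∑ j, (x (j + 1) - x j) ^ 2 := by
    refine Finset.sum_congr rfl fun j _ => ?_
    simp only [d, z]
    rw [← Complex.ofReal_sub, Complex.norm_real, Real.norm_eq_abs, sq_abs]
  have main : (2 - 2 * Real.cos (2 * Real.pi / N)) * ∑ k, ‖dft z k‖ ^ 2 ≤ ∑ k, ‖dft d k‖ ^ 2 := by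
    rw [Finset.mul_sum]
    refine Finset.sum_le_sum fun k _ => ?_
    rw [hd, norm_mul, mul_pow, normSq_stdAddChar_sub_one]
    by_cases hk : k = 0
    · subst hk
      rw [h0]; simp
    · refine mul_le_mul_of_nonneg_right ?_ (by positivity)
      have hv1 : 1 ≤ k.val := by
        rcases Nat.eq_zero_or_pos k.val with h | h
        · exact absurd ((ZMod.val_eq_zero k).1 h) hk
        · exact h
      have hv2 : k.val + 1 ≤ N := ZMod.val_lt k
      have hv1' : (1 : ℝ) ≤ k.val := by exact_mod_cast hv1
      have hv2' : (k.val : ℝ) + 1 ≤ N := by exact_mod_cast hv2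
      have hpi := Real.pi_pos
      have hc : Real.cos (2 * Real.pi * k.val / N) ≤ Real.cos (2 * Real.pi / N) := by
        apply cos_le_cos_of_mem
        · positivity
        · rw [div_le_div_iff_of_pos_right hN]
          nlinarith
        · rw [le_sub_iff_add_le, ← add_div, div_le_iff₀ hN]
          nlinarith
      linarith
  rw [P1, P2, e1, e2] at main
  have : N * ((2 - 2 * Real.cos (2 * Real.pi / N)) * ∑ j, x j ^ 2) ≤ N * ∑ j, (x (j + 1) - x j) ^ 2 := by
    linarith
  exact le_of_mul_le_mul_left this hN

end Cyclic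

open Classical in
theorem exists_closed_walk {V : Type*} [Fintype V] (G : SimpleGraph V) (hG : G.Connected)
    (u : V) (m : ℕ) (hm : G.edgeSet.ncard = m) :
    ∀ k ≤ m, ∃ p : G.Walk u u, p.length = 2 * k ∧
      ∀ e, p.edges.count e = 0 ∨ p.edges.count e = 2 := by
  intro k
  induction k with
  | zero =>
    intro _
    exact ⟨SimpleGraph.Walk.nil, by simp, fun e => by simp⟩
  | succ k ih =>
    intro hk
    obtain ⟨p, hp, hc⟩ := ih (by omega)
    have hE : (G.edgeFinset).card = m := by
      rw [← hm, Set.ncard_eq_toFinset_card', SimpleGraph.edgeFinset]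
    have hsum : ∑ e ∈ G.edgeFinset, p.edges.count e = 2 * k := by
      have h1 : ∑ e ∈ G.edgeFinset, Multiset.count e (p.edges : Multiset (Sym2 V)) =
          Multiset.card (p.edges : Multiset (Sym2 V)) := by
        apply Multiset.sum_count_eq_card
        intro a ha
        rw [SimpleGraph.mem_edgeFinset]
        exact SimpleGraph.Walk.edges_subset_edgeSet p (by simpa using ha)
      simp only [Multiset.coe_count, Multiset.coe_card, SimpleGraph.Walk.length_edges] at h1
      rw [h1, hp]
    obtain ⟨e, heE, he0⟩ : ∃ e ∈ G.edgeFinset, p.edges.count e = 0 := by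
      by_contra hcon
      push Not at hcon
      have h2 : ∑ e ∈ G.edgeFinset, p.edges.count e = ∑ e ∈ G.edgeFinset, 2 := by
        refine Finset.sum_congr rfl fun e he => ?_
        rcases hc e with h | h
        · exact absurd h (hcon e he)
        · exact h
      rw [hsum, Finset.sum_const, hE, smul_eq_mul] at h2
      omega
    -- find an unused edge touching the support
    obtain ⟨x, y, hxy, hx, hcount⟩ : ∃ x y, G.Adj x y ∧ x ∈ p.support ∧
        p.edges.count s(x, y) = 0 := by
      by_cases hall : ∀ v, v ∈ p.support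
      · induction e using Sym2.ind with
        | _ a b =>
          rw [SimpleGraph.mem_edgeFinset, SimpleGraph.mem_edgeSet] at heE
          exact ⟨a, b, heE, hall a, he0⟩
      · push Not at hall
        obtain ⟨v, hv⟩ := hall
        obtain ⟨q⟩ := hG.preconnected u v
        obtain ⟨d, -, hd1, hd2⟩ := q.exists_boundary_dart {w | w ∈ p.support}
          (by simp) hv
        refine ⟨d.fst, d.snd, d.adj, hd1, ?_⟩
        rw [List.count_eq_zero]
        intro hmem
        exact hd2 (p.snd_mem_support_of_mem_edges hmem)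
    let p' : G.Walk u u := (p.takeUntil x hx).append
      (SimpleGraph.Walk.cons hxy (SimpleGraph.Walk.cons hxy.symm (p.dropUntil x hx)))
    have hspec := p.take_spec hx
    refine ⟨p', ?_, ?_⟩
    · have hl : (p.takeUntil x hx).length + (p.dropUntil x hx).length = p.length := by
        conv_rhs => rw [← hspec]
        rw [SimpleGraph.Walk.length_append]
      simp only [p', SimpleGraph.Walk.length_append, SimpleGraph.Walk.length_cons]
      omega
    · intro f
      have hcf : (p.takeUntil x hx).edges.count f + (p.dropUntil x hx).edges.count f =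
          p.edges.count f := by
        conv_rhs => rw [← hspec]
        rw [SimpleGraph.Walk.edges_append, List.count_append]
      simp only [p', SimpleGraph.Walk.edges_append, SimpleGraph.Walk.edges_cons,
        List.count_append, List.count_cons, Sym2.eq_swap (a := y) (b := x)]
      by_cases hf : f = s(x, y)
      · subst hf
        simp
        omega
      · have hf' : (s(x, y) == f) = false := by
          rw [beq_eq_false_iff_ne]
          exact fun h => hf h.symm
        simp only [hf', Bool.false_eq_true, if_false]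
        rcases hc f with h | h
        · left; omega
        · right; omega

/-- Sums along a walk of a function of the edge. -/
theorem sum_walk {V : Type*} {G : SimpleGraph V} {u v : V} (p : G.Walk u v) (H : Sym2 V → ℝ) :
    ∑ i ∈ range p.length, H s(p.getVert i, p.getVert (i + 1)) = (p.edges.map H).sum := by
  induction p with
  | nil => simp
  | cons h q ih =>
    rw [SimpleGraph.Walk.length_cons, Finset.sum_range_succ', SimpleGraph.Walk.edges_cons,
      List.map_cons, List.sum_cons, ← ih]
    simp only [SimpleGraph.Walk.getVert_cons_succ, SimpleGraph.Walk.getVert_zero]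
    rw [add_comm]

theorem sum_cyc {N : ℕ} [NeZero N] (F : ℕ → ℕ → ℝ) (hF : ∀ i, F i N = F i 0) :
    ∑ j : ZMod N, F j.val (j + 1).val = ∑ i ∈ range N, F i (i + 1) := by
  obtain _ | n := N
  · exact absurd rfl (NeZero.ne 0)
  · rw [← Fin.sum_univ_eq_sum_range (fun i => F i (i + 1)) (n + 1)]
    change ∑ j : Fin (n + 1), F j.val (j + 1).val = _
    refine Finset.sum_congr rfl fun j _ => ?_
    by_cases hj : j = Fin.last n
    · subst hj
      simp [hF]
    · rw [Fin.val_add_one]
      simp [hj]

open Classical in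
theorem sum_adj {V : Type*} [Fintype V] (G : SimpleGraph V) (H : Sym2 V → ℝ) :
    ∑ x, ∑ y, (if G.Adj x y then H s(x, y) else 0) = ∑ e ∈ G.edgeFinset, 2 * H e := by
  rw [← Finset.sum_product', ← Finset.sum_filter]
  rw [← Finset.sum_fiberwise_of_maps_to (s := (univ ×ˢ univ).filter fun z : V × V => G.Adj z.1 z.2)
    (t := G.edgeFinset) (g := fun z => s(z.1, z.2))]
  · refine Finset.sum_congr rfl fun e he => ?_
    induction e using Sym2.ind with
    | _ a b =>
      rw [SimpleGraph.mem_edgeFinset, SimpleGraph.mem_edgeSet] at he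
      have hfil : ((univ ×ˢ univ).filter fun z : V × V => G.Adj z.1 z.2).filter
          (fun z => s(z.1, z.2) = s(a, b)) = {(a, b), (b, a)} := by
        ext ⟨x, y⟩
        simp only [mem_filter, mem_product, mem_univ, true_and, mem_insert, mem_singleton,
          Prod.mk.injEq, Sym2.eq_iff]
        constructor
        · rintro ⟨-, h⟩; exact h
        · rintro (⟨rfl, rfl⟩ | ⟨rfl, rfl⟩)
          · exact ⟨he, Or.inl ⟨rfl, rfl⟩⟩
          · exact ⟨he.symm, Or.inr ⟨rfl, rfl⟩⟩
      rw [hfil, Finset.sum_pair]
      · rw [Sym2.eq_swap (a := b) (b := a)]; ring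
      · intro h
        rw [Prod.mk.injEq] at h
        exact he.ne h.1
  · intro z hz
    simpa using hz

open Classical in
/-- The basic comparison with the cycle of length `2 m`. -/
theorem main_ineq {V : Type*} [Fintype V] (G : SimpleGraph V) (hG : G.Connected)
    (m : ℕ) (hm1 : 1 ≤ m) (hm : G.edgeSet.ncard = m) (f : V → ℝ)
    (hf : ∑ x, ∑ y, (if G.Adj x y then f x else 0) = 0) :
    ∑ x, ∑ y, (if G.Adj x y then f x * f y else 0) ≤
      Real.cos (Real.pi / m) * ∑ x, ∑ y, (if G.Adj x y then f x ^ 2 else 0) := by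
  obtain ⟨u⟩ := hG.nonempty
  obtain ⟨p, hlen, hc⟩ := exists_closed_walk G hG u m hm m le_rfl
  have hE : (G.edgeFinset).card = m := by
    rw [← hm, Set.ncard_eq_toFinset_card', SimpleGraph.edgeFinset]
  have hsub : ∀ a ∈ p.edges, a ∈ G.edgeFinset := fun a ha => by
    rw [SimpleGraph.mem_edgeFinset]
    exact SimpleGraph.Walk.edges_subset_edgeSet p ha
  have hsum : ∑ e ∈ G.edgeFinset, p.edges.count e = 2 * m := by
    have h1 : ∑ e ∈ G.edgeFinset, Multiset.count e (p.edges : Multiset (Sym2 V)) =
        Multiset.card (p.edges : Multiset (Sym2 V)) := by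
      apply Multiset.sum_count_eq_card
      intro a ha
      exact hsub a (by simpa using ha)
    simp only [Multiset.coe_count, Multiset.coe_card, SimpleGraph.Walk.length_edges] at h1
    rw [h1, hlen]
  have hall : ∀ e ∈ G.edgeFinset, p.edges.count e = 2 := by
    by_contra hcon
    push Not at hcon
    obtain ⟨e, he, hne⟩ := hcon
    have hlt : ∑ e ∈ G.edgeFinset, p.edges.count e < ∑ e ∈ G.edgeFinset, 2 := by
      apply Finset.sum_lt_sum
      · intro i _
        rcases hc i with h | h <;> omega
      · exact ⟨e, he, by rcases hc e with h | h <;> omega⟩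
    rw [hsum, Finset.sum_const, hE, smul_eq_mul] at hlt
    omega
  have hwalk : ∀ H : Sym2 V → ℝ, ∑ i ∈ range (2 * m), H s(p.getVert i, p.getVert (i + 1)) =
      ∑ x, ∑ y, (if G.Adj x y then H s(x, y) else 0) := by
    intro H
    rw [sum_adj, ← hlen, sum_walk, Finset.sum_list_map_count]
    have h2 : ∑ e ∈ G.edgeFinset, 2 * H e = ∑ e ∈ G.edgeFinset, p.edges.count e • H e := by
      refine Finset.sum_congr rfl fun e he => ?_
      rw [hall e he]; simp
    rw [h2]
    refine Finset.sum_subset (fun a ha => hsub a (by simpa using ha)) ?_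
    intro e _ he
    have : p.edges.count e = 0 := by
      rw [List.count_eq_zero]
      simpa using he
    rw [this]; simp
  have hNZ : NeZero (2 * m) := ⟨by omega⟩
  let g : ZMod (2 * m) → ℝ := fun j => f (p.getVert j.val)
  have hend : p.getVert (2 * m) = p.getVert 0 := by
    rw [← hlen, SimpleGraph.Walk.getVert_length, SimpleGraph.Walk.getVert_zero]
  have hshift : ∀ φ : ℝ → ℝ, ∑ j, φ (g (j + 1)) = ∑ j, φ (g j) := fun φ =>
    Equiv.sum_comp (Equiv.addRight (1 : ZMod (2 * m))) (fun j => φ (g j))
  have hφ : ∀ φ : ℝ → ℝ, ∑ j, φ (g j) = ∑ x, ∑ y, (if G.Adj x y then φ (f x) else 0) := by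
    intro φ
    have e1 := hwalk (Sym2.lift ⟨fun x y => φ (f x) + φ (f y), fun x y => by ring⟩)
    have e2 := sum_cyc (N := 2 * m) (fun i j => φ (f (p.getVert i)) + φ (f (p.getVert j)))
      (fun i => by simp only [hend])
    simp only [Sym2.lift_mk] at e1
    rw [← e2] at e1
    have e3 : ∑ j : ZMod (2 * m), (φ (f (p.getVert j.val)) + φ (f (p.getVert (j + 1).val))) =
        2 * ∑ j, φ (g j) := by
      rw [Finset.sum_add_distrib]
      have := hshift φ
      simp only [g] at this ⊢
      rw [this]; ring
    rw [e3] at e1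
    have e4 : ∑ x, ∑ y, (if G.Adj x y then φ (f x) + φ (f y) else 0) =
        2 * ∑ x, ∑ y, (if G.Adj x y then φ (f x) else 0) := by
      have e5 : ∑ x, ∑ y, (if G.Adj x y then φ (f y) else 0) =
          ∑ x, ∑ y, (if G.Adj x y then φ (f x) else 0) := by
        rw [Finset.sum_comm]
        refine Finset.sum_congr rfl fun x _ => Finset.sum_congr rfl fun y _ => ?_
        simp only [G.adj_comm]
      have e6 : ∀ x y, (if G.Adj x y then φ (f x) + φ (f y) else 0) =
          (if G.Adj x y then φ (f x) else 0) + (if G.Adj x y then φ (f y) else 0) := by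
        intro x y; split_ifs <;> simp
      simp only [e6, Finset.sum_add_distrib]
      rw [e5]; ring
    rw [e4] at e1
    linarith
  have hg0 : ∑ j, g j = 0 := by
    have := hφ (fun t => t)
    rw [hf] at this
    exact this
  have hw := wirtinger g hg0
  have hsq : ∑ j, g j ^ 2 = ∑ x, ∑ y, (if G.Adj x y then f x ^ 2 else 0) := hφ (fun t => t ^ 2)
  have hprod : ∑ j, g j * g (j + 1) = ∑ x, ∑ y, (if G.Adj x y then f x * f y else 0) := by
    have e1 := hwalk (Sym2.lift ⟨fun x y => f x * f y, fun x y => by ring⟩)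
    have e2 := sum_cyc (N := 2 * m) (fun i j => f (p.getVert i) * f (p.getVert j))
      (fun i => by simp only [hend])
    simp only [Sym2.lift_mk] at e1
    rw [← e1, ← e2]
  have hexp : ∑ j, (g (j + 1) - g j) ^ 2 = 2 * ∑ j, g j ^ 2 - 2 * ∑ j, g j * g (j + 1) := by
    have e1 : ∀ j, (g (j + 1) - g j) ^ 2 = g (j + 1) ^ 2 + g j ^ 2 - 2 * (g j * g (j + 1)) := by
      intro j; ring
    simp only [e1, Finset.sum_sub_distrib, Finset.sum_add_distrib, ← Finset.mul_sum]
    have h7 : ∑ j, g (j + 1) ^ 2 = ∑ j, g j ^ 2 := hshift (fun t => t ^ 2)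
    rw [h7]; ring
  have hcos : Real.cos (2 * Real.pi / ((2 * m : ℕ) : ℝ)) = Real.cos (Real.pi / m) := by
    congr 1
    push_cast
    have : (m : ℝ) ≠ 0 := by positivity
    field_simp
  rw [hexp, hcos, hsq, hprod] at hw
  linarith

open Classical in
theorem ncard_neighborSet {V : Type*} [Fintype V] (G : SimpleGraph V) (x : V) :
    ((G.neighborSet x).ncard : ℝ) = ∑ y, (if G.Adj x y then (1 : ℝ) else 0) := by
  rw [Finset.sum_boole, Set.ncard_eq_toFinset_card']
  congr 2
  ext y
  simp

theorem exists_adj_of_ncard {V : Type*} [Fintype V] (G : SimpleGraph V)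
    (m : ℕ) (hm1 : 1 ≤ m) (hm : G.edgeSet.ncard = m) : ∃ a b, G.Adj a b := by
  have : (G.edgeSet).Nonempty := by
    rw [← Set.ncard_pos (Set.toFinite _)]; omega
  obtain ⟨e, he⟩ := this
  induction e using Sym2.ind with
  | _ a b => exact ⟨a, b, he⟩

theorem deg_pos {V : Type*} [Fintype V] (G : SimpleGraph V) (hG : G.Connected)
    (m : ℕ) (hm1 : 1 ≤ m) (hm : G.edgeSet.ncard = m) (x : V) :
    0 < ((G.neighborSet x).ncard : ℝ) := by
  obtain ⟨a, b, hab⟩ := exists_adj_of_ncard G m hm1 hm
  have hnt : Nontrivial V := ⟨⟨a, b, hab.ne⟩⟩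
  obtain ⟨y, hy⟩ := hG.preconnected.exists_adj_of_nontrivial x
  have : (G.neighborSet x).Nonempty := ⟨y, hy⟩
  have := (Set.ncard_pos (Set.toFinite _)).2 this
  exact_mod_cast this

theorem card_ge_two {V : Type*} [Fintype V] (G : SimpleGraph V)
    (m : ℕ) (hm1 : 1 ≤ m) (hm : G.edgeSet.ncard = m) : 2 ≤ Fintype.card V := by
  obtain ⟨a, b, hab⟩ := exists_adj_of_ncard G m hm1 hm
  have hnt : Nontrivial V := ⟨⟨a, b, hab.ne⟩⟩
  exact Fintype.one_lt_card

open Classical in
/-- The symmetric normalisation of the transition matrix. -/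
noncomputable def symMatrix {V : Type*} [Fintype V] (G : SimpleGraph V) : Matrix V V ℝ :=
  Matrix.of fun x y => if G.Adj x y then
    1 / √((G.neighborSet x).ncard : ℝ) * (1 / √((G.neighborSet y).ncard : ℝ)) else 0

theorem symMatrix_isHermitian {V : Type*} [Fintype V] (G : SimpleGraph V) :
    (symMatrix G).IsHermitian := by
  ext x y
  simp only [symMatrix, Matrix.conjTranspose_apply, Matrix.of_apply, star_trivial]
  by_cases h : G.Adj x y
  · rw [if_pos h, if_pos h.symm, mul_comm]
  · rw [if_neg h, if_neg (fun h' => h h'.symm)]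

theorem charpoly_eq {V : Type*} [Fintype V] [DecidableEq V] (G : SimpleGraph V) :
    (transitionMatrix G).charpoly = (symMatrix G).charpoly := by
  classical
  let r : V → ℝ := fun x => 1 / √((G.neighborSet x).ncard : ℝ)
  have h1 : transitionMatrix G =
      Matrix.diagonal r * (Matrix.diagonal r * Matrix.of fun x y => if G.Adj x y then (1:ℝ) else 0) := by
    ext x y
    rw [Matrix.diagonal_mul, Matrix.diagonal_mul]
    simp only [transitionMatrix, Matrix.of_apply, r]
    split_ifs
    · rw [mul_one, div_mul_div_comm, one_mul, Real.mul_self_sqrt (by positivity)]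
    · simp
  have h2 : symMatrix G =
      (Matrix.diagonal r * Matrix.of fun x y => if G.Adj x y then (1:ℝ) else 0) * Matrix.diagonal r := by
    ext x y
    rw [Matrix.mul_diagonal, Matrix.diagonal_mul]
    simp only [symMatrix, Matrix.of_apply, r]
    split_ifs <;> simp
  rw [h1, h2, Matrix.charpoly_mul_comm]

theorem eigenvalueList_eq {V : Type*} [Fintype V] [DecidableEq V] (G : SimpleGraph V) :
    eigenvalueList G = List.ofFn (symMatrix_isHermitian G).eigenvalues₀ := by
  rw [← (symMatrix_isHermitian G).sort_roots_charpoly_eq_eigenvalues₀, eigenvalueList,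
    charpoly_eq]
  congr 1
  simp

/-- Sanity check: there are exactly as many (real) eigenvalues as vertices. -/
theorem eigenvalueList_length {V : Type*} [Fintype V] [DecidableEq V] (G : SimpleGraph V) :
    (eigenvalueList G).length = Fintype.card V := by
  rw [eigenvalueList_eq, List.length_ofFn]

theorem lambda2_le {V : Type*} [Fintype V] [DecidableEq V] (G : SimpleGraph V)
    (hG : G.Connected) (m : ℕ) (hm1 : 1 ≤ m) (hm : G.edgeSet.ncard = m) :
    lambda2 G ≤ Real.cos (Real.pi / m) := by
  classical
  have hcard := card_ge_two G m hm1 hm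
  have hS := symMatrix_isHermitian G
  have hl2 : lambda2 G = (symMatrix_isHermitian G).eigenvalues₀ ⟨1, by omega⟩ := by
    rw [lambda2, eigenvalueList_eq, List.getD_eq_getElem _ _ (by rw [List.length_ofFn]; omega),
      List.getElem_ofFn]
  set eqv : Fin (Fintype.card V) ≃ V := Fintype.equivOfCardEq (Fintype.card_fin _) with heqv
  set i0 : V := eqv ⟨0, by omega⟩ with hi0
  set i1 : V := eqv ⟨1, by omega⟩ with hi1
  have hne : i0 ≠ i1 := by
    intro h
    have := eqv.injective h
    simp at this
  have he1 : (symMatrix_isHermitian G).eigenvalues i1 = lambda2 G := by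
    rw [hl2, Matrix.IsHermitian.eigenvalues, hi1, heqv, Equiv.symm_apply_apply]
  have he0 : lambda2 G ≤ (symMatrix_isHermitian G).eigenvalues i0 := by
    rw [hl2, Matrix.IsHermitian.eigenvalues, hi0, heqv, Equiv.symm_apply_apply]
    apply (symMatrix_isHermitian G).eigenvalues₀_antitone
    simp
  set a : V → ℝ := ⇑((symMatrix_isHermitian G).eigenvectorBasis i0) with ha
  set b : V → ℝ := ⇑((symMatrix_isHermitian G).eigenvectorBasis i1) with hb
  have hSa := (symMatrix_isHermitian G).mulVec_eigenvectorBasis i0
  have hSb := (symMatrix_isHermitian G).mulVec_eigenvectorBasis i1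
  have hon := (symMatrix_isHermitian G).eigenvectorBasis.orthonormal
  have haa : a ⬝ᵥ a = 1 := by
    have := hon.1 i0
    have h2 := real_inner_self_eq_norm_sq ((symMatrix_isHermitian G).eigenvectorBasis i0)
    rw [this, EuclideanSpace.inner_eq_star_dotProduct] at h2
    simpa using h2
  have hbb : b ⬝ᵥ b = 1 := by
    have := hon.1 i1
    have h2 := real_inner_self_eq_norm_sq ((symMatrix_isHermitian G).eigenvectorBasis i1)
    rw [this, EuclideanSpace.inner_eq_star_dotProduct] at h2
    simpa using h2
  have hab : a ⬝ᵥ b = 0 := by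
    have h2 : inner ℝ ((symMatrix_isHermitian G).eigenvectorBasis i0)
        ((symMatrix_isHermitian G).eigenvectorBasis i1) = 0 := hon.2 hne
    rw [EuclideanSpace.inner_eq_star_dotProduct] at h2
    simpa [dotProduct_comm] using h2
  have hba : b ⬝ᵥ a = 0 := by rw [dotProduct_comm]; exact hab
  rw [← ha] at hSa
  rw [← hb] at hSb
  set l0 := (symMatrix_isHermitian G).eigenvalues i0 with hl0
  rw [he1] at hSb
  set w : V → ℝ := fun x => √((G.neighborSet x).ncard : ℝ) with hw
  obtain ⟨α, β, hαβ, horth⟩ : ∃ α β : ℝ, 0 < α ^ 2 + β ^ 2 ∧ α * (w ⬝ᵥ a) + β * (w ⬝ᵥ b) = 0 := by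
    by_cases h : w ⬝ᵥ a = 0 ∧ w ⬝ᵥ b = 0
    · exact ⟨1, 0, by norm_num, by rw [h.1, h.2]; ring⟩
    · refine ⟨w ⬝ᵥ b, -(w ⬝ᵥ a), ?_, by ring⟩
      rw [not_and_or] at h
      rcases h with h | h
      · have := sq_pos_of_ne_zero h
        nlinarith [sq_nonneg (w ⬝ᵥ b)]
      · have := sq_pos_of_ne_zero h
        nlinarith [sq_nonneg (w ⬝ᵥ a)]
  set v : V → ℝ := α • a + β • b with hv
  have hvv : v ⬝ᵥ v = α ^ 2 + β ^ 2 := by
    simp only [hv, add_dotProduct, dotProduct_add, smul_dotProduct, dotProduct_smul, haa, hbb,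
      hab, hba, smul_eq_mul]
    ring
  have hvSv : v ⬝ᵥ (symMatrix G).mulVec v = α ^ 2 * l0 + β ^ 2 * lambda2 G := by
    simp only [hv, Matrix.mulVec_add, Matrix.mulVec_smul, hSa, hSb, add_dotProduct,
      dotProduct_add, smul_dotProduct, dotProduct_smul, haa, hbb,
      hab, hba, smul_eq_mul]
    ring
  have hwv : w ⬝ᵥ v = 0 := by
    simp only [hv, dotProduct_add, dotProduct_smul, smul_eq_mul]
    exact horth
  have hdeg : ∀ x, 0 < ((G.neighborSet x).ncard : ℝ) := deg_pos G hG m hm1 hm
  have hdsum := ncard_neighborSet G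
  set f : V → ℝ := fun x => 1 / √((G.neighborSet x).ncard : ℝ) * v x with hf
  have hwx : ∀ x, w x * w x = ((G.neighborSet x).ncard : ℝ) := fun x =>
    Real.mul_self_sqrt (hdeg x).le
  have hwpos : ∀ x, 0 < w x := fun x => Real.sqrt_pos.2 (hdeg x)
  have hfx : ∀ x, f x = v x / w x := fun x => by
    simp only [hf, hw]; ring
  have key := main_ineq G hG m hm1 hm f (by
    have : ∀ x, ∑ y, (if G.Adj x y then f x else 0) = w x * v x := by
      intro x
      have : ∑ y, (if G.Adj x y then f x else 0) = f x * ∑ y, (if G.Adj x y then (1:ℝ) else 0) := by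
        rw [Finset.mul_sum]
        refine Finset.sum_congr rfl fun y _ => ?_
        split_ifs <;> simp
      rw [this, ← hdsum, ← hwx, hfx]
      have := (hwpos x).ne'
      field_simp
    simp only [this]
    exact hwv)
  have hL : ∑ x, ∑ y, (if G.Adj x y then f x * f y else 0) = v ⬝ᵥ (symMatrix G).mulVec v := by
    simp only [dotProduct, Matrix.mulVec]
    refine Finset.sum_congr rfl fun x _ => ?_
    rw [Finset.mul_sum]
    refine Finset.sum_congr rfl fun y _ => ?_
    simp only [symMatrix, Matrix.of_apply, hf]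
    split_ifs
    · ring
    · ring
  have hR : ∑ x, ∑ y, (if G.Adj x y then f x ^ 2 else 0) = v ⬝ᵥ v := by
    simp only [dotProduct]
    refine Finset.sum_congr rfl fun x _ => ?_
    have : ∑ y, (if G.Adj x y then f x ^ 2 else 0) = f x ^ 2 * ∑ y, (if G.Adj x y then (1:ℝ) else 0) := by
      rw [Finset.mul_sum]
      refine Finset.sum_congr rfl fun y _ => ?_
      split_ifs <;> simp
    rw [this, ← hdsum, ← hwx, hfx]
    have := (hwpos x).ne'
    field_simp
  rw [hL, hR, hvSv, hvv] at key
  have h5 : lambda2 G * (α ^ 2 + β ^ 2) ≤ Real.cos (Real.pi / m) * (α ^ 2 + β ^ 2) := by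
    have : α ^ 2 * lambda2 G ≤ α ^ 2 * l0 := mul_le_mul_of_nonneg_left he0 (sq_nonneg _)
    linarith
  exact le_of_mul_le_mul_right h5 hαβ

open Classical in
theorem mem_eigenvalueList {V : Type*} [Fintype V] [DecidableEq V] (G : SimpleGraph V)
    (hG : G.Connected) (m : ℕ) (hm1 : 1 ≤ m) (hm : G.edgeSet.ncard = m)
    (f : V → ℝ) (hf : f ≠ 0) (μ : ℝ)
    (h : ∀ x, ∑ y, (if G.Adj x y then f y else 0) =
      μ * ((∑ y, (if G.Adj x y then (1 : ℝ) else 0)) * f x)) :
    μ ∈ eigenvalueList G := by
  rw [eigenvalueList, Multiset.mem_sort, Polynomial.mem_roots (Matrix.charpoly_monic _).ne_zero,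
    Polynomial.IsRoot.def, Matrix.eval_charpoly, ← Matrix.exists_mulVec_eq_zero_iff]
  refine ⟨f, hf, ?_⟩
  ext x
  rw [Matrix.sub_mulVec, Pi.sub_apply, Pi.zero_apply, sub_eq_zero]
  have h1 : (Matrix.scalar V μ).mulVec f x = μ * f x := by
    rw [Matrix.scalar_apply, Matrix.mulVec_diagonal]
  rw [h1]
  have hd := deg_pos G hG m hm1 hm x
  simp only [Matrix.mulVec, dotProduct, transitionMatrix, Matrix.of_apply]
  have h2 : ∑ y, (if G.Adj x y then 1 / ((G.neighborSet x).ncard : ℝ) else 0) * f y =
      (1 / ((G.neighborSet x).ncard : ℝ)) * ∑ y, (if G.Adj x y then f y else 0) := by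
    rw [Finset.mul_sum]
    refine Finset.sum_congr rfl fun y _ => ?_
    split_ifs <;> simp
  rw [h2, h x, ← ncard_neighborSet]
  field_simp

theorem le_getD_one {l : List ℝ} (hl : l.Pairwise (· ≥ ·)) {a c : ℝ} (ha : a ∈ l) (hc : c ∈ l)
    (hac : c < a) : c ≤ l.getD 1 0 := by
  match l, hl with
  | [], _ => simp at ha
  | [x], _ =>
    simp only [List.mem_singleton] at ha hc
    subst ha; subst hc
    exact absurd hac (lt_irrefl _)
  | x :: y :: t, hl =>
    simp only [List.getD_cons_succ, List.getD_cons_zero]
    rw [List.pairwise_cons, List.pairwise_cons] at hl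
    obtain ⟨h1, h2, -⟩ := hl
    rw [List.mem_cons] at hc
    rcases hc with rfl | hc
    · rw [List.mem_cons] at ha
      rcases ha with rfl | ha
      · exact absurd hac (lt_irrefl _)
      · exact absurd (h1 a ha) (not_le.2 hac)
    · rw [List.mem_cons] at hc
      rcases hc with rfl | hc
      · exact le_rfl
      · exact h2 c hc

open Classical in
theorem sum_path (m : ℕ) (x : Fin (m + 1)) (g : ℕ → ℝ) :
    ∑ y : Fin (m + 1), (if (SimpleGraph.pathGraph (m + 1)).Adj x y then g y.val else 0) =
      (if x.val < m then g (x.val + 1) else 0) + (if 1 ≤ x.val then g (x.val - 1) else 0) := by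
  have h1 : ∀ y : Fin (m + 1), (if (SimpleGraph.pathGraph (m + 1)).Adj x y then g y.val else 0) =
      (if y.val = x.val + 1 then g (x.val + 1) else 0) +
      (if y.val + 1 = x.val then g (x.val - 1) else 0) := by
    intro y
    rw [SimpleGraph.pathGraph_adj]
    by_cases ha : x.val + 1 = y.val
    · rw [if_pos (Or.inl ha), if_pos ha.symm, if_neg (by omega), ha, add_zero]
    · by_cases hb : y.val + 1 = x.val
      · rw [if_pos (Or.inr hb), if_neg (by omega), if_pos hb, ← hb, zero_add]
        simp
      · rw [if_neg (by tauto), if_neg (by omega), if_neg hb, add_zero]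
  simp only [h1, Finset.sum_add_distrib]
  congr 1
  · by_cases hx : x.val < m
    · rw [if_pos hx, Finset.sum_eq_single (⟨x.val + 1, by omega⟩ : Fin (m + 1))]
      · simp
      · intro b _ hb
        rw [if_neg]
        intro h
        exact hb (Fin.ext h)
      · simp
    · rw [if_neg hx]
      refine Finset.sum_eq_zero fun y _ => ?_
      rw [if_neg]
      have := y.isLt
      omega
  · by_cases hx : 1 ≤ x.val
    · rw [if_pos hx, Finset.sum_eq_single (⟨x.val - 1, by omega⟩ : Fin (m + 1))]
      · rw [if_pos]; simp; omega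
      · intro b _ hb
        rw [if_neg]
        intro h
        apply hb
        apply Fin.ext
        simp; omega
      · simp
    · rw [if_neg hx]
      refine Finset.sum_eq_zero fun y _ => ?_
      rw [if_neg]
      omega

theorem pathGraph_ncard (m : ℕ) : (SimpleGraph.pathGraph (m + 1)).edgeSet.ncard = m := by
  have h : (SimpleGraph.pathGraph (m + 1)).edgeSet =
      Set.range (fun i : Fin m => s(i.castSucc, i.succ)) := by
    ext e
    induction e using Sym2.ind with
    | _ a b =>
      rw [SimpleGraph.mem_edgeSet, SimpleGraph.pathGraph_adj, Set.mem_range]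
      constructor
      · rintro (h | h)
        · refine ⟨⟨a.val, by omega⟩, ?_⟩
          rw [Sym2.eq_iff]
          left
          exact ⟨Fin.ext (by simp), Fin.ext (by simp [h])⟩
        · refine ⟨⟨b.val, by omega⟩, ?_⟩
          rw [Sym2.eq_iff]
          right
          exact ⟨Fin.ext (by simp), Fin.ext (by simp [h])⟩
      · rintro ⟨i, hi⟩
        rw [Sym2.eq_iff] at hi
        rcases hi with ⟨h1, h2⟩ | ⟨h1, h2⟩
        · left; rw [← h1, ← h2]; simp
        · right; rw [← h1, ← h2]; simp
  rw [h, ← Set.image_univ, Set.ncard_image_of_injective, Set.ncard_univ, Nat.card_eq_fintype_card,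
    Fintype.card_fin]
  intro i j hij
  simp only [Sym2.eq_iff, Fin.ext_iff, Fin.val_castSucc, Fin.val_succ] at hij
  apply Fin.ext
  omega

theorem lambda2_path (m : ℕ) (hm1 : 1 ≤ m) :
    lambda2 (SimpleGraph.pathGraph (m + 1)) = Real.cos (Real.pi / m) := by
  classical
  have hconn := SimpleGraph.pathGraph_connected m
  have hm := pathGraph_ncard m
  apply le_antisymm (lambda2_le _ hconn m hm1 hm)
  have hmpos : (0 : ℝ) < m := by exact_mod_cast hm1
  have hc1 : Real.cos (Real.pi / m) < 1 := by
    rw [← Real.cos_zero]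
    apply Real.cos_lt_cos_of_nonneg_of_le_pi le_rfl
    · apply div_le_self Real.pi_pos.le
      exact_mod_cast hm1
    · positivity
  refine le_getD_one (Multiset.pairwise_sort _ _) (a := 1) ?_ ?_ hc1
  · refine mem_eigenvalueList _ hconn m hm1 hm (fun _ => 1) ?_ 1 (fun x => by simp)
    intro h
    have := congrFun h 0
    simp at this
  · refine mem_eigenvalueList _ hconn m hm1 hm
      (fun x => Real.cos (Real.pi * x.val / m)) ?_ _ (fun x => ?_)
    · intro h
      have := congrFun h 0
      simp at this
    · rw [sum_path m x (fun i => Real.cos (Real.pi * i / m)), sum_path m x (fun _ => 1)]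
      have hx := x.isLt
      by_cases h0 : x.val = 0
      · rw [if_pos (by omega), if_neg (by omega), if_pos (by omega), if_neg (by omega), h0]
        simp
      · have h1 : 1 ≤ x.val := by omega
        have hcast : ((x.val - 1 : ℕ) : ℝ) = (x.val : ℝ) - 1 := by
          push_cast [Nat.cast_sub h1]; ring
        by_cases hxm : x.val < m
        · rw [if_pos hxm, if_pos h1, if_pos hxm, if_pos h1, hcast]
          have e1 : Real.pi * ((x.val + 1 : ℕ) : ℝ) / m = Real.pi * x.val / m + Real.pi / m := by
            push_cast; ring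
          have e2 : Real.pi * ((x.val : ℝ) - 1) / m = Real.pi * x.val / m - Real.pi / m := by
            ring
          rw [e1, e2, Real.cos_add, Real.cos_sub]
          ring
        · have hxm' : x.val = m := by omega
          rw [if_neg hxm, if_pos h1, if_neg hxm, if_pos h1, hcast, hxm']
          have e2 : Real.pi * ((m : ℝ) - 1) / m = Real.pi - Real.pi / m := by
            field_simp
          have e3 : Real.pi * (m : ℝ) / m = Real.pi := by field_simp
          rw [e2, e3, Real.cos_pi_sub, Real.cos_pi]
          ring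

theorem one_sub_cos_pos (m : ℕ) (hm1 : 1 ≤ m) : 0 < 1 - Real.cos (Real.pi / m) := by
  have hmpos : (0 : ℝ) < m := by exact_mod_cast hm1
  have hc1 : Real.cos (Real.pi / m) < 1 := by
    rw [← Real.cos_zero]
    apply Real.cos_lt_cos_of_nonneg_of_le_pi le_rfl
    · apply div_le_self Real.pi_pos.le
      exact_mod_cast hm1
    · positivity
  linarith

theorem relaxationTime_path (m : ℕ) (hm1 : 1 ≤ m) :
    relaxationTime (SimpleGraph.pathGraph (m + 1)) = 1 / (1 - Real.cos (Real.pi / m)) := by
  rw [relaxationTime, lambda2_path m hm1]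

theorem relaxationTime_le {V : Type*} [Fintype V] [DecidableEq V] (G : SimpleGraph V)
    (hG : G.Connected) (m : ℕ) (hm1 : 1 ≤ m) (hm : G.edgeSet.ncard = m) :
    relaxationTime G ≤ 1 / (1 - Real.cos (Real.pi / m)) := by
  rw [relaxationTime]
  apply one_div_le_one_div_of_le (one_sub_cos_pos m hm1)
  have := lambda2_le G hG m hm1 hm
  linarith

theorem tendsto_ratio :
    Tendsto (fun m : ℕ => (1 / (1 - Real.cos (Real.pi / m))) / (2 * (m : ℝ) ^ 2 / Real.pi ^ 2))
      atTop (𝓝 1) := by
  have h1 : Tendsto (fun m : ℕ => Real.pi / 2 / (m : ℝ)) atTop (𝓝 0) :=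
    tendsto_const_div_atTop_nhds_zero_nat _
  have h2 : Tendsto (fun m : ℕ => (Real.sinc (Real.pi / 2 / (m : ℝ)) ^ 2)⁻¹) atTop (𝓝 1) := by
    have := ((Real.continuous_sinc.tendsto 0).comp h1)
    rw [Real.sinc_zero] at this
    simpa using (this.pow 2).inv₀ (by norm_num)
  refine h2.congr' ?_
  filter_upwards [eventually_ge_atTop 1] with m hm
  have hmpos : (0 : ℝ) < m := by exact_mod_cast hm
  have hpi := Real.pi_pos
  rw [Real.sinc_of_ne_zero (by positivity)]
  have hcos : 1 - Real.cos (Real.pi / m) = 2 * Real.sin (Real.pi / 2 / m) ^ 2 := by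
    have := Real.cos_two_mul (Real.pi / 2 / m)
    have h3 := Real.sin_sq_add_cos_sq (Real.pi / 2 / m)
    rw [show 2 * (Real.pi / 2 / m) = Real.pi / m by ring] at this
    rw [this]; linarith
  have hpos := one_sub_cos_pos m hm
  rw [hcos] at hpos ⊢
  have hs : Real.sin (Real.pi / 2 / m) ≠ 0 := by
    intro h
    rw [h] at hpos
    norm_num at hpos
  field_simp


/-- **Full answer to Q1.**  For every `m ≥ 1` the maximum relaxation time of a connected graph with
`m` edges is attained by the path with `m` edges; consequently `R m` is asymptotically equivalent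
to the relaxation time of the path, and to `2 m ^ 2 / pi ^ 2`. -/
theorem result :
    (∀ m : ℕ, 1 ≤ m → IsGreatest (relaxationTimes m) (R m) ∧
      R m = relaxationTime (SimpleGraph.pathGraph (m + 1))) ∧
    Asymptotics.IsEquivalent atTop R
      (fun m : ℕ => relaxationTime (SimpleGraph.pathGraph (m + 1))) ∧
    Asymptotics.IsEquivalent atTop R (fun m : ℕ => 2 * (m : ℝ) ^ 2 / Real.pi ^ 2) := by
  have hgreat : ∀ m : ℕ, 1 ≤ m →
      IsGreatest (relaxationTimes m) (relaxationTime (SimpleGraph.pathGraph (m + 1))) := by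
    intro m hm
    constructor
    · exact ⟨m + 1, SimpleGraph.pathGraph (m + 1), SimpleGraph.pathGraph_connected m,
        pathGraph_ncard m, rfl⟩
    · rintro T ⟨n, G, hG, hGm, rfl⟩
      rw [relaxationTime_path m hm]
      exact relaxationTime_le G hG m hm hGm
  have hR : ∀ m : ℕ, 1 ≤ m → R m = relaxationTime (SimpleGraph.pathGraph (m + 1)) :=
    fun m hm => (hgreat m hm).csSup_eq
  have hequiv : Asymptotics.IsEquivalent atTop R
      (fun m : ℕ => relaxationTime (SimpleGraph.pathGraph (m + 1))) := by
    apply Filter.EventuallyEq.isEquivalent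
    filter_upwards [eventually_ge_atTop 1] with m hm
    exact hR m hm
  refine ⟨fun m hm => ⟨?_, hR m hm⟩, hequiv, ?_⟩
  · rw [hR m hm]
    exact hgreat m hm
  · refine Asymptotics.isEquivalent_of_tendsto_one ?_
    refine tendsto_ratio.congr' ?_
    filter_upwards [eventually_ge_atTop 1] with m hm
    rw [Pi.div_apply, hR m hm, relaxationTime_path m hm]

end Pool.Agent.Results.MP_ea35a0_co.PathMaximises
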